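import Pool.Agent.helper66.SL.SpecC

/-!
# sl:CKM (MP_ad2b66_co)
-/

set_option autoImplicit false

namespace Pool.Agent.helper66.SL

open Pool.Agent.helper52.FC

section CKMaux

variable {E : Type}

theorem CKM_two {α : Type} {S : Set α} (hS : S.Finite) (h : S.ncard = 2) {a b : α} (ha : a ∈ S)
    (hb : b ∈ S) (hab : a ≠ b) : ∀ x ∈ S, x = a ∨ x = b := by
  intro x hx
  by_contra hcon
  push Not at hcon
  classical
  have hsub : (({x, a, b} : Finset α) : Set α) ⊆ S := by
    intro y hy
    simp only [Finset.coe_insert, Finset.coe_singleton, Set.mem_insert_iff, Set.mem_singleton_iff] at hy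
    rcases hy with rfl | rfl | rfl
    · exact hx
    · exact ha
    · exact hb
  have h1 := Set.ncard_le_ncard hsub hS
  rw [Set.ncard_coe_finset] at h1
  have h2 : ({x, a, b} : Finset α).card = 3 := by
    rw [Finset.card_insert_of_notMem (by simp [hcon.1, hcon.2]),
      Finset.card_insert_of_notMem (by simp [hab]), Finset.card_singleton]
  omega

theorem CKM_three {α : Type} {S : Set α} (hS : S.Finite) (h : S.ncard = 3) {a b c : α} (ha : a ∈ S)
    (hb : b ∈ S) (hc : c ∈ S) (hab : a ≠ b) (hac : a ≠ c) (hbc : b ≠ c) :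
    ∀ x ∈ S, x = a ∨ x = b ∨ x = c := by
  intro x hx
  by_contra hcon
  push Not at hcon
  classical
  have hsub : (({x, a, b, c} : Finset α) : Set α) ⊆ S := by
    intro y hy
    simp only [Finset.coe_insert, Finset.coe_singleton, Set.mem_insert_iff, Set.mem_singleton_iff] at hy
    rcases hy with rfl | rfl | rfl | rfl
    · exact hx
    · exact ha
    · exact hb
    · exact hc
  have h1 := Set.ncard_le_ncard hsub hS
  rw [Set.ncard_coe_finset] at h1
  have h2 : ({x, a, b, c} : Finset α).card = 4 := by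
    rw [Finset.card_insert_of_notMem (by simp [hcon.1, hcon.2.1, hcon.2.2]),
      Finset.card_insert_of_notMem (by simp [hab, hac]),
      Finset.card_insert_of_notMem (by simp [hbc]), Finset.card_singleton]
  omega

/-- another element of a set with two elements -/
theorem CKM_other {α : Type} {S : Set α} (hS : S.Finite) {n : ℕ} (h : S.ncard = n + 1) (hn : 1 ≤ n)
    (a : α) : ∃ b ∈ S, b ≠ a := by
  obtain ⟨b, hb, hba⟩ := Set.exists_mem_notMem_of_ncard_lt_ncard (s := {a}) (t := S)
    (by rw [Set.ncard_singleton]; omega) (Set.finite_singleton a)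
  exact ⟨b, hb, hba⟩

theorem CKM_third {α : Type} {S : Set α} (hS : S.Finite) (h : S.ncard = 3) {a b : α} (ha : a ∈ S)
    (hb : b ∈ S) (hab : a ≠ b) : ∃ c ∈ S, c ≠ a ∧ c ≠ b ∧ ∀ x ∈ S, x = a ∨ x = b ∨ x = c := by
  obtain ⟨c, hc, hcab⟩ := Set.exists_mem_notMem_of_ncard_lt_ncard (s := ({a, b} : Set α)) (t := S)
    (by rw [Set.ncard_pair hab, h]; omega) (Set.toFinite _)
  simp only [Set.mem_insert_iff, Set.mem_singleton_iff, not_or] at hcab
  exact ⟨c, hc, hcab.1, hcab.2, CKM_three hS h ha hb hc hab (Ne.symm hcab.1) (Ne.symm hcab.2)⟩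

theorem CKM_neg_zero {v : E → SignType} {g : E} (h : v g = 0) : (fun e => -v e) g = 0 := by
  show -v g = 0
  rw [h]
  decide

/-- the triangle of a tope, seen from the wall `e` -/
theorem CKM_tri [Finite E] (hTRI : TRI) {L : Set (E → SignType)} (hR : R3 L) {T : E → SignType}
    (hT : IsTope L T) {e : E} (he : Wall L T e) : ∃ (j k : E) (q r s : E → SignType),
      j ≠ e ∧ k ≠ e ∧ j ≠ k ∧ (∀ g, Wall L T g ↔ g = e ∨ g = j ∨ g = k) ∧
      Cork L q 2 ∧ Cork L r 2 ∧ Cork L s 2 ∧ Le q T ∧ Le r T ∧ Le s T ∧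
      q e ≠ 0 ∧ q j = 0 ∧ q k = 0 ∧ r e = 0 ∧ r j = 0 ∧ r k ≠ 0 ∧ s e = 0 ∧ s j ≠ 0 ∧ s k = 0 := by
  obtain ⟨i, j, k, p, q, r, h1, h2, h3, h4, h5, h6, h7, h8, h9, h10, h11, h12, h13, h14, h15, h16,
    h17, h18, h19, _⟩ := hTRI E L hR T hT
  rcases (h4 e).1 he with h | h | h
  · subst h
    exact ⟨j, k, p, r, q, h1.symm, h2.symm, h3, h4, h5, h7, h6, h8, h10, h9, h11, h12, h13, h17, h18,
      h19, h14, h15, h16⟩
  · subst h
    refine ⟨i, k, q, r, p, h1, h3.symm, h2, fun g => ?_, h6, h7, h5, h9, h10, h8, h15, h14, h16, h18,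
      h17, h19, h12, h11, h13⟩
    rw [h4 g]
    tauto
  · subst h
    refine ⟨i, j, r, q, p, h2, h3, h1, fun g => ?_, h7, h6, h5, h10, h9, h8, h19, h17, h18, h16,
      h14, h15, h13, h11, h12⟩
    rw [h4 g]
    tauto

/-- a triple vertex off `e` -/
theorem CKM_A [Finite E] (hPAT : PAT) (hTRI : TRI) {L : Set (E → SignType)} (hR : R3 L)
    {S : E → SignType} (hS : IsTope L S) {e k : E} (he : Wall L S e) (hk : Wall L S k) (hke : k ≠ e)
    {q : E → SignType} (hq : Vx L 3 q) (hqS : Le q S) (hqe : q e ≠ 0) :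
    q k = 0 ∧ ∃ t, q t = 0 ∧ t ≠ k ∧ t ≠ e ∧ ¬ Wall L S t ∧ Wall L (fl S k) t ∧
      ∀ g, q g = 0 → ¬ Wall L S g → g = t := by
  obtain ⟨j0, k0, _, _, _, h1, h2, h3, h4, _⟩ := CKM_tri hTRI hR hS he
  have hn := hq.1.2 S hS hqS
  have hfin : {g | Wall L S g ∧ q g = 0}.Finite := Set.toFinite _
  have hsub : {g | Wall L S g ∧ q g = 0} ⊆ ({j0, k0} : Set E) := by
    rintro g ⟨hg, hg0⟩
    rcases (h4 g).1 hg with h | h | h
    · exact absurd (h ▸ hg0) hqe
    · exact Or.inl h
    · exact Or.inr h
  have heq : {g | Wall L S g ∧ q g = 0} = ({j0, k0} : Set E) := by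
    refine Set.eq_of_subset_of_ncard_le hsub ?_ (Set.toFinite _)
    rw [Set.ncard_pair h3, hn]
  have hj0 : Wall L S j0 ∧ q j0 = 0 := by
    have : j0 ∈ {g | Wall L S g ∧ q g = 0} := by rw [heq]; exact Or.inl rfl
    exact this
  have hk0 : Wall L S k0 ∧ q k0 = 0 := by
    have : k0 ∈ {g | Wall L S g ∧ q g = 0} := by rw [heq]; exact Or.inr rfl
    exact this
  -- the other wall
  obtain ⟨j, hj, hqj, hjk, hqk⟩ : ∃ j, Wall L S j ∧ q j = 0 ∧ j ≠ k ∧ q k = 0 := by
    rcases (h4 k).1 hk with h | h | h
    · exact absurd h hke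
    · exact ⟨k0, hk0.1, hk0.2, by rw [h]; exact h3.symm, by rw [h]; exact hj0.2⟩
    · exact ⟨j0, hj0.1, hj0.2, by rw [h]; exact h3, by rw [h]; exact hk0.2⟩
  obtain ⟨t, ht, htk, htj, hall⟩ := CKM_third (S := {g | q g = 0}) (Set.toFinite _) hq.2 (a := k)
    (b := j) hqk hqj hjk.symm
  have hpat := hPAT E L hR.good q hq.1 k j t hjk.symm htk htj hqk hqj ht (fun g hg => hall g hg) S hS
    hqS hk hj
  refine ⟨hqk, t, ht, htk, fun h => hqe (h ▸ ht), hpat.1, hpat.2.1, fun g hg hgw => ?_⟩
  rcases hall g hg with h | h | h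
  · exact absurd (h ▸ hk) hgw
  · exact absurd (h ▸ hj) hgw
  · exact h

theorem CKM_walls3 {L : Set (E → SignType)} (hR : R3 L) [Finite E] {R : E → SignType} (hT : IsTope L R)
    {a b c : E} (ha : Wall L R a) (hb : Wall L R b) (hc : Wall L R c) (hab : a ≠ b) (hac : a ≠ c)
    (hbc : b ≠ c) : ∀ g, Wall L R g → g = a ∨ g = b ∨ g = c := by
  intro g hg
  have h1 := hR.rk.2 R hT (fun _ => Or.inl rfl)
  exact CKM_three (S := {e | Wall L R e ∧ (fun _ : E => (0 : SignType)) e = 0}) (Set.toFinite _) h1
    ⟨ha, rfl⟩ ⟨hb, rfl⟩ ⟨hc, rfl⟩ hab hac hbc g ⟨hg, rfl⟩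

/-- the predicate of the chain -/
def CKM_Q (L : Set (E → SignType)) (e x : E) (S : E → SignType) : Prop :=
  S e = 1 ∧ ∃ q, Vx L 3 q ∧ Le q S ∧ q e ≠ 0 ∧ q x = 0 ∧ ¬ Wall L S x

/-- two vertices with two common zeros -/
theorem CKM_pun [Finite E] (hPUN : PUN) {L : Set (E → SignType)} (hR : R3 L) {Z q : E → SignType}
    (hZ : Cork L Z 2) (hq : Cork L q 2) {e k t : E} (hZe : Z e = 0) (hqe : q e ≠ 0) (hZk : Z k = 0)
    (hqk : q k = 0) (hqt : q t = 0) (htk : t ≠ k) : Z t ≠ 0 := by
  intro h
  rcases hPUN E L hR Z q hZ hq t k htk h hZk hqt hqk with h1 | h1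
  · rw [h1] at hqe
    exact hqe hZe
  · rw [h1] at hqe
    exact hqe (CKM_neg_zero hZe)

theorem CKM_step [Finite E] (hPAT : PAT) (hSZZ : SZZ) (hTRI : TRI) (hPUN : PUN)
    {L : Set (E → SignType)} (hR : R3 L) {e x : E}
    (H : ∀ p, Cork L p 2 → p e = 0 → Vx L 3 p) (hD : ∀ S, S ∉ Ds L e)
    {S S' Z : E → SignType} (hS : IsTope L S) (hS' : IsTope L S') (hZ : Cork L Z 2) (hZe : Z e = 0)
    (hZS : Le Z S) (hZS' : Le Z S') (he : Wall L S e) (he' : Wall L S' e) (hee : S e = S' e)
    (hne : S ≠ S') (hQ : CKM_Q L e x S) : CKM_Q L e x S' := by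
  have hG := hR.good
  obtain ⟨hSe, q, hq, hqS, hqe, hqx, hSx⟩ := hQ
  have hZ3 := H Z hZ hZe
  -- the second wall of S in z(Z)
  obtain ⟨k, ⟨hk, hZk⟩, hke⟩ := CKM_other (S := {g | Wall L S g ∧ Z g = 0}) (Set.toFinite _)
    (n := 1) (hZ.2 S hS hZS) le_rfl e
  obtain ⟨k', hZk', hk'k, hk'e, hall⟩ := CKM_third (S := {g | Z g = 0}) (Set.toFinite _) hZ3.2
    (a := k) (b := e) hZk hZe hke
  have hpat := hPAT E L hG Z hZ k e k' hke hk'k hk'e hZk hZe hZk' (fun g hg => hall g hg) S hS hZS hk he
  have hsupp := fun g => tope_supp hG.om hG.simple hS g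
  have hsupp' := fun g => tope_supp hG.om hG.simple hS' g
  have hoff : ∀ g, g ≠ k → g ≠ k' → S' g = S g := by
    intro g hgk hgk'
    by_cases hg : Z g = 0
    · rcases hall g hg with h | h | h
      · exact absurd h hgk
      · rw [h]; exact hee.symm
      · exact absurd h hgk'
    · rcases hZS g with h | h
      · exact absurd h hg
      · rcases hZS' g with h' | h'
        · exact absurd h' hg
        · rw [← h, ← h']
  have hS'k : S' k = -S k := by
    by_contra hcon
    have h1 : S' k = S k := by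
      by_contra h2
      exact hcon (sne (hsupp' k) (hsupp k) h2)
    have h2 : S' k' = -S k' := by
      by_contra h3
      have h4 : S' k' = S k' := by
        by_contra h5
        exact h3 (sne (hsupp' k') (hsupp k') h5)
      apply hne
      funext g
      by_cases hgk : g = k
      · rw [hgk, h1]
      · by_cases hgk' : g = k'
        · rw [hgk', h4]
        · exact (hoff g hgk hgk').symm
    have h3 : fl S k' = S' := by
      funext g
      by_cases hgk' : g = k'
      · rw [hgk', fl_same, h2]
      · rw [fl_ne S hgk']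
        by_cases hgk : g = k
        · rw [hgk, h1]
        · exact (hoff g hgk hgk').symm
    apply hpat.1
    unfold Wall
    rw [h3]
    exact hS'
  have hS'k' : S' k' = -S k' := by
    by_contra hcon
    have h1 : S' k' = S k' := by
      by_contra h2
      exact hcon (sne (hsupp' k') (hsupp k') h2)
    have h3 : fl S k = S' := by
      funext g
      by_cases hgk : g = k
      · rw [hgk, fl_same, hS'k]
      · rw [fl_ne S hgk]
        by_cases hgk' : g = k'
        · rw [hgk', h1]
        · exact (hoff g hgk hgk').symm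
    apply hpat.2.2
    rw [h3]
    exact he'
  have hR' : fl S' k' = fl S k := by
    funext g
    by_cases hgk : g = k
    · rw [hgk, fl_same, fl_ne S' hk'k.symm, hS'k]
    · rw [fl_ne S hgk]
      by_cases hgk' : g = k'
      · rw [hgk', fl_same, hS'k', neg_neg]
      · rw [fl_ne S' hgk']
        exact hoff g hgk hgk'
  have hRt : IsTope L (fl S k) := hk
  have hk'w : Wall L S' k' := by
    unfold Wall
    rw [hR']
    exact hRt
  have hRk : Wall L (fl S k) k := by
    unfold Wall
    rw [fl_fl]
    exact hS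
  -- the label of S
  obtain ⟨hqk, t, hqt, htk, hte, htS, htR, htu⟩ := CKM_A hPAT hTRI hR hS he hk hke hq hqS hqe
  have hxt : x = t := htu x hqx hSx
  have htk' : t ≠ k' := fun h => CKM_pun hPUN hR hZ hq.1 hZe hqe hZk hqk hqt htk (h ▸ hZk')
  -- the label of S'
  obtain ⟨j0, k0, q', _, _, _, _, _, _, hq', _, _, hq'S, _, _, hq'e, _⟩ := CKM_tri hTRI hR hS' he'
  have hS'e : S' e = 1 := by rw [← hee]; exact hSe
  have hq'3 : Vx L 3 q' := by
    rcases (hSZZ E L hG hR.cl q' hq').1 with h | h
    · exact absurd ⟨hS', he', hS'e, q', ⟨hq', h⟩, hq'S, hq'e⟩ (hD S')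
    · exact ⟨hq', h⟩
  obtain ⟨hqk1, t', hqt', htk1, hte', htS', htR', htu'⟩ :=
    CKM_A hPAT hTRI hR hS' he' hk'w hk'e hq'3 hq'S hq'e
  rw [hR'] at htR'
  have htk1' : t' ≠ k := fun h =>
    CKM_pun hPUN hR hZ hq'3.1 hZe hq'e hZk' hqk1 hqt' htk1 (h ▸ hZk)
  have h3 := CKM_walls3 hR hRt hRk hpat.2.1 htR hk'k.symm (Ne.symm htk) (Ne.symm htk') t' htR'
  have htt : t' = x := by
    rcases h3 with h | h | h
    · exact absurd h htk1'
    · exact absurd h htk1
    · rw [h, hxt]
  refine ⟨hS'e, q', hq'3, hq'S, hq'e, ?_, ?_⟩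
  · rw [← htt]; exact hqt'
  · rw [← htt]; exact htS'

/-- a tope with wall `e`, positive at `e`, above a given vertex with the walls `e`, `x` -/
theorem CKM_pos [Finite E] (hPAT : PAT) {L : Set (E → SignType)} (hR : R3 L) {p : E → SignType}
    (hp : Vx L 3 p) {e x : E} (hex : e ≠ x) (hpe : p e = 0) (hpx : p x = 0) :
    ∃ T, IsTope L T ∧ Le p T ∧ Wall L T e ∧ Wall L T x ∧ T e = 1 := by
  have hG := hR.good
  obtain ⟨c, hc, hce, hcx, hall⟩ := CKM_third (S := {g | p g = 0}) (Set.toFinite _) hp.2
    (a := e) (b := x) hpe hpx hex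
  -- some tope with the two walls
  obtain ⟨T, hT, hpT, hTe, hTx⟩ : ∃ T, IsTope L T ∧ Le p T ∧ Wall L T e ∧ Wall L T x := by
    obtain ⟨T0, hT0⟩ := exists_tope hG.om
    have hA : IsTope L (cmp p T0) := by
      refine tope_of (hG.om.comp p hp.1.1 T0 hT0.1) fun g => ?_
      by_cases hg : p g = 0
      · rw [cmp_pos hg]
        exact tope_supp hG.om hG.simple hT0 g
      · rwa [cmp_neg hg]
    have hpA := le_cmp p T0
    set A := cmp p T0
    have hn := hp.1.2 A hA hpA
    obtain ⟨a, ⟨haw, hap⟩, _⟩ := CKM_other (S := {g | Wall L A g ∧ p g = 0}) (Set.toFinite _)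
      (n := 1) hn le_rfl e
    obtain ⟨b, ⟨hbw, hbp⟩, hba⟩ := CKM_other (S := {g | Wall L A g ∧ p g = 0}) (Set.toFinite _)
      (n := 1) hn le_rfl a
    have hfl : ∀ u v w : E, u ≠ v → w ≠ u → w ≠ v → p u = 0 → p v = 0 → p w = 0 →
        (∀ g, p g = 0 → g = u ∨ g = v ∨ g = w) → Wall L A u → Wall L A v →
        IsTope L (fl A u) ∧ Le p (fl A u) ∧ Wall L (fl A u) u ∧ Wall L (fl A u) w := by
      intro u v w huv hwu hwv hu hv hw hgg hwu' hwv'
      have h1 := hPAT E L hG p hp.1 u v w huv hwu hwv hu hv hw hgg A hA hpA hwu' hwv'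
      refine ⟨hwu', ?_, ?_, h1.2.1⟩
      · intro g
        by_cases hg : g = u
        · exact Or.inl (hg ▸ hu)
        · rw [fl_ne A hg]
          exact hpA g
      · unfold Wall
        rw [fl_fl]
        exact hA
    by_cases hce' : Wall L A e
    · by_cases hcx' : Wall L A x
      · exact ⟨A, hA, hpA, hce', hcx'⟩
      · -- walls e and c
        have hcw : Wall L A c := by
          by_cases hae : a = e
          · rcases hall b hbp with h | h | h
            · exact absurd (h.trans hae.symm) hba
            · exact absurd (h ▸ hbw) hcx'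
            · exact h ▸ hbw
          · rcases hall a hap with h | h | h
            · exact absurd h hae
            · exact absurd (h ▸ haw) hcx'
            · exact h ▸ haw
        obtain ⟨h1, h2, h3, h4⟩ := hfl e c x hce.symm (Ne.symm hex) hcx.symm hpe hc hpx
          (fun g hg => by rcases hall g hg with h | h | h <;> simp [h]) hce' hcw
        exact ⟨_, h1, h2, h3, h4⟩
    · have hxw : Wall L A x := by
        rcases hall a hap with h | h | h
        · exact absurd (h ▸ haw) hce'
        · exact h ▸ haw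
        · rcases hall b hbp with h' | h' | h'
          · exact absurd (h' ▸ hbw) hce'
          · exact h' ▸ hbw
          · exact absurd (h'.trans h.symm) hba
      have hcw : Wall L A c := by
        rcases hall a hap with h | h | h
        · exact absurd (h ▸ haw) hce'
        · rcases hall b hbp with h' | h' | h'
          · exact absurd (h' ▸ hbw) hce'
          · exact absurd (h'.trans h.symm) hba
          · exact h' ▸ hbw
        · exact h ▸ haw
      obtain ⟨h1, h2, h3, h4⟩ := hfl x c e hcx.symm hex hce.symm hpx hc hpe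
        (fun g hg => by rcases hall g hg with h | h | h <;> simp [h]) hxw hcw
      exact ⟨_, h1, h2, h4, h3⟩
  by_cases hpos : T e = 1
  · exact ⟨T, hT, hpT, hTe, hTx, hpos⟩
  · have hTe0 := tope_supp hG.om hG.simple hT e
    have hTm : T e = -1 := by
      revert hpos hTe0
      cases T e <;> decide
    have htop : ∀ R, IsTope L R → IsTope L (cmp p (fun g => -R g)) := by
      intro R hRt
      refine tope_of (hG.om.comp p hp.1.1 _ (hG.om.neg R hRt.1)) fun g => ?_
      by_cases hg : p g = 0
      · rw [cmp_pos hg]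
        have := tope_supp hG.om hG.simple hRt g
        simpa using this
      · rwa [cmp_neg hg]
    have hw : ∀ g, p g = 0 → Wall L T g → Wall L (cmp p (fun g => -T g)) g := by
      intro g hg hgw
      have h1 : fl (cmp p (fun g => -T g)) g = cmp p (fun h => -(fl T g) h) := by
        funext h
        by_cases hh : h = g
        · rw [hh, fl_same, cmp_pos hg, cmp_pos hg, fl_same]
        · rw [fl_ne _ hh]
          by_cases hph : p h = 0
          · rw [cmp_pos hph, cmp_pos hph, fl_ne _ hh]
          · rw [cmp_neg hph, cmp_neg hph]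
      unfold Wall
      rw [h1]
      exact htop _ hgw
    refine ⟨cmp p (fun g => -T g), htop T hT, le_cmp _ _, hw e hpe hTe, hw x hpx hTx, ?_⟩
    rw [cmp_pos hpe, hTm]
    decide

end CKMaux

theorem CKM_proof (hCHN : CHN) (hPAT : PAT) (hSZZ : SZZ) (hTRI : TRI) (hPEX : PEX) (hPUN : PUN)
    (hCPR : CPR) : CKM := by
  intro E _ L hR e H
  have hG := hR.good
  by_contra hcon
  have hfinD : (Ds L e).Finite := Set.toFinite _
  have hcases : (Ds L e).ncard = 0 ∨ (Ds L e).ncard = 1 ∨ (Ds L e).ncard = 2 := by omega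
  rcases hcases with h0 | h1 | h2
  · -- no double triangle
    have hD : ∀ S, S ∉ Ds L e := by
      intro S hS
      rw [Set.ncard_eq_zero hfinD] at h0
      rw [h0] at hS
      exact hS
    -- a first tope
    obtain ⟨S0, hS0, hS0e, hS01⟩ : ∃ S, IsTope L S ∧ Wall L S e ∧ S e = 1 := by
      obtain ⟨S, R, hS, hR', hSR⟩ := exists_diff hG.om hG.simple e
      have hfl : ∀ S R : E → SignType, IsTope L S → IsTope L R → DiffAt e S R → fl S e = R := by
        intro S R hS hR' hd
        funext g
        by_cases hg : g = e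
        · rw [hg, fl_same]
          have := sne (tope_supp hG.om hG.simple hS e) (tope_supp hG.om hG.simple hR' e) hd.1
          rw [this, neg_neg]
        · rw [fl_ne S hg]
          exact hd.2 g hg
      have hSR' : DiffAt e R S := ⟨Ne.symm hSR.1, fun f hf => (hSR.2 f hf).symm⟩
      by_cases hpos : S e = 1
      · refine ⟨S, hS, ?_, hpos⟩
        unfold Wall
        rw [hfl S R hS hR' hSR]
        exact hR'
      · refine ⟨R, hR', ?_, ?_⟩
        · unfold Wall
          rw [hfl R S hR' hS hSR']
          exact hS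
        · have h1 := tope_supp hG.om hG.simple hS e
          have h2 := tope_supp hG.om hG.simple hR' e
          have h3 := hSR.1
          revert hpos h1 h2 h3
          cases S e <;> cases R e <;> decide
    obtain ⟨j0, k0, q, _, _, hj0e, _, _, hw0, hq, _, _, hqS, _, _, hqe, _⟩ := CKM_tri hTRI hR hS0 hS0e
    have hq3 : Vx L 3 q := by
      rcases (hSZZ E L hG hR.cl q hq).1 with h | h
      · exact absurd ⟨hS0, hS0e, hS01, q, ⟨hq, h⟩, hqS, hqe⟩ (hD S0)
      · exact ⟨hq, h⟩
    obtain ⟨_, x, hqx, _, hxe, hxS, _, _⟩ := CKM_A hPAT hTRI hR hS0 hS0e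
      ((hw0 j0).2 (Or.inr (Or.inl rfl))) hj0e hq3 hqS hqe
    obtain ⟨p, hp, hpe, hpx⟩ := hPEX E L hR e x (Ne.symm hxe)
    obtain ⟨T, hT, _, hTe, hTx, hT1⟩ := CKM_pos hPAT hR (H p hp hpe) (Ne.symm hxe) hpe hpx
    have hfin := hCHN E L hG e (CKM_Q L e x) S0 T hS0 hT hS0e hTe (by rw [hS01, hT1])
      ⟨hS01, q, hq3, hqS, hqe, hqx, hxS⟩ (fun S S' Z hS hS' hZ hZe hZS hZS' hw hw' hee hne hQ =>
        CKM_step hPAT hSZZ hTRI hPUN hR H hD hS hS' hZ hZe hZS hZS' hw hw' hee hne hQ)
    obtain ⟨_, _, _, _, _, _, hcontra⟩ := hfin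
    exact hcontra hTx
  · -- exactly one
    obtain ⟨A, hA⟩ := Set.ncard_eq_one.1 h1
    have hAD : A ∈ Ds L e := by rw [hA]; exact rfl
    obtain ⟨j, k, _, _, _, hje, _, _, hw, _⟩ := CKM_tri hTRI hR hAD.1 hAD.2.1
    have hev := hCPR E L hR e H j hje
    have h3 : {S | S ∈ Ds L e ∧ Wall L S j} = {A} := by
      ext S
      constructor
      · rintro ⟨hS, _⟩
        rw [hA] at hS
        exact hS
      · intro hS
        have hSA : S = A := hS
        rw [hSA]
        exact ⟨hAD, (hw j).2 (Or.inr (Or.inl rfl))⟩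
    rw [h3, Set.ncard_singleton] at hev
    exact absurd hev (by decide)
  · -- exactly two
    obtain ⟨A, B, hAB, hDAB⟩ := Set.ncard_eq_two.1 h2
    have hAD : A ∈ Ds L e := by rw [hDAB]; exact Or.inl rfl
    have hBD : B ∈ Ds L e := by rw [hDAB]; exact Or.inr rfl
    -- same walls
    have hsame : ∀ g, g ≠ e → (Wall L A g ↔ Wall L B g) := by
      intro g hg
      have hev := hCPR E L hR e H g hg
      constructor
      · intro hAg
        by_contra hBg
        have h3 : {S | S ∈ Ds L e ∧ Wall L S g} = {A} := by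
          ext S
          constructor
          · rintro ⟨hS, hSg⟩
            rw [hDAB] at hS
            rcases hS with h | h
            · exact h
            · have hSB : S = B := h
              exact absurd (hSB ▸ hSg) hBg
          · intro hS
            have hSA : S = A := hS
            rw [hSA]
            exact ⟨hAD, hAg⟩
        rw [h3, Set.ncard_singleton] at hev
        exact absurd hev (by decide)
      · intro hBg
        by_contra hAg
        have h3 : {S | S ∈ Ds L e ∧ Wall L S g} = {B} := by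
          ext S
          constructor
          · rintro ⟨hS, hSg⟩
            rw [hDAB] at hS
            rcases hS with h | h
            · have hSA : S = A := h
              exact absurd (hSA ▸ hSg) hAg
            · exact h
          · intro hS
            have hSB : S = B := hS
            rw [hSB]
            exact ⟨hBD, hBg⟩
        rw [h3, Set.ncard_singleton] at hev
        exact absurd hev (by decide)
    obtain ⟨hAt, hAe, hA1, qd, hqd2, hqdA, hqde⟩ := hAD
    obtain ⟨hBt, hBe, hB1, qd', hqd2', hqdB, hqde'⟩ := hBD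
    have hsuppA := fun g => tope_supp hG.om hG.simple hAt g
    have hsuppB := fun g => tope_supp hG.om hG.simple hBt g
    obtain ⟨x, y, q, p, p2, hxe, hye, hxy, hwA, hq, hp, hp2, hqA, hpA, hp2A, hqe, hqx, hqy, hpe, hpx,
      hpy, hp2e, hp2x, hp2y⟩ := CKM_tri hTRI hR hAt hAe
    have hwAx : Wall L A x := (hwA x).2 (Or.inr (Or.inl rfl))
    have hwAy : Wall L A y := (hwA y).2 (Or.inr (Or.inr rfl))
    have hwBx : Wall L B x := (hsame x hxe).1 hwAx
    have hwBy : Wall L B y := (hsame y hye).1 hwAy
    -- q is the double vertex of A: zero set {x, y}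
    have hwallsA : ∀ v, Cork L v 2 → Le v A → v e ≠ 0 → v x = 0 ∧ v y = 0 := by
      intro v hv hvA hve
      have hn := hv.2 A hAt hvA
      have hsub : {g | Wall L A g ∧ v g = 0} ⊆ ({x, y} : Set E) := by
        rintro g ⟨hg, hg0⟩
        rcases (hwA g).1 hg with h | h | h
        · exact absurd (h ▸ hg0) hve
        · exact Or.inl h
        · exact Or.inr h
      have heq : {g | Wall L A g ∧ v g = 0} = ({x, y} : Set E) := by
        refine Set.eq_of_subset_of_ncard_le hsub ?_ (Set.toFinite _)
        rw [Set.ncard_pair hxy, hn]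
      have hx' : x ∈ {g | Wall L A g ∧ v g = 0} := by rw [heq]; exact Or.inl rfl
      have hy' : y ∈ {g | Wall L A g ∧ v g = 0} := by rw [heq]; exact Or.inr rfl
      exact ⟨hx'.2, hy'.2⟩
    have hwB : ∀ g, Wall L B g ↔ g = e ∨ g = x ∨ g = y := by
      intro g
      by_cases hg : g = e
      · exact ⟨fun _ => Or.inl hg, fun _ => hg ▸ hBe⟩
      · rw [← hsame g hg]
        exact hwA g
    have hwallsB : ∀ v, Cork L v 2 → Le v B → v e ≠ 0 → v x = 0 ∧ v y = 0 := by
      intro v hv hvB hve
      have hn := hv.2 B hBt hvB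
      have hsub : {g | Wall L B g ∧ v g = 0} ⊆ ({x, y} : Set E) := by
        rintro g ⟨hg, hg0⟩
        rcases (hwB g).1 hg with h | h | h
        · exact absurd (h ▸ hg0) hve
        · exact Or.inl h
        · exact Or.inr h
      have heq : {g | Wall L B g ∧ v g = 0} = ({x, y} : Set E) := by
        refine Set.eq_of_subset_of_ncard_le hsub ?_ (Set.toFinite _)
        rw [Set.ncard_pair hxy, hn]
      have hx' : x ∈ {g | Wall L B g ∧ v g = 0} := by rw [heq]; exact Or.inl rfl
      have hy' : y ∈ {g | Wall L B g ∧ v g = 0} := by rw [heq]; exact Or.inr rfl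
      exact ⟨hx'.2, hy'.2⟩
    obtain ⟨hdx, hdy⟩ := hwallsA qd hqd2.1 hqdA hqde
    obtain ⟨hdx', hdy'⟩ := hwallsB qd' hqd2'.1 hqdB hqde'
    have hval : qd e = 1 := by
      rcases hqdA e with h | h
      · exact absurd h hqde
      · rw [h, hA1]
    have hval' : qd' e = 1 := by
      rcases hqdB e with h | h
      · exact absurd h hqde'
      · rw [h, hB1]
    have hqq : qd' = qd := by
      rcases hPUN E L hR qd qd' hqd2.1 hqd2'.1 x y hxy hdx hdy hdx' hdy' with h | h
      · exact h
      · exfalso
        have := congrFun h e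
        rw [hval', hval] at this
        exact absurd this (by decide)
    have hdz : ∀ g, qd g = 0 → g = x ∨ g = y :=
      fun g hg => CKM_two (S := {g | qd g = 0}) (Set.toFinite _) hqd2.2 hdx hdy hxy g hg
    have hoff : ∀ g, g ≠ x → g ≠ y → A g = B g := by
      intro g hgx hgy
      have hg : qd g ≠ 0 := fun h => by
        rcases hdz g h with h | h
        · exact hgx h
        · exact hgy h
      rcases hqdA g with h | h
      · exact absurd h hg
      · rcases hqdB g with h' | h'
        · rw [hqq] at h'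
          exact absurd h' hg
        · rw [hqq] at h'
          rw [← h, ← h']
    -- p triple with walls e, x
    have hpat : ∀ (v : E → SignType) (u : E), Cork L v 2 → Le v A → v e = 0 → v u = 0 → u ≠ e →
        Wall L A u → ¬ Wall L (fl A u) e := by
      intro v u hv hvA hve hvu hue hu
      obtain ⟨c, hc, hcu, hce, hall⟩ := CKM_third (S := {g | v g = 0}) (Set.toFinite _) (H v hv hve).2
        (a := u) (b := e) hvu hve hue
      exact (hPAT E L hG v hv u e c hue hcu hce hvu hve hc (fun g hg => hall g hg) A hAt hvA hu hAe).2.2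
    have hBx : B x = -A x := by
      by_contra hcon2
      have h3 : B x = A x := by
        by_contra h4
        exact hcon2 (sne (hsuppB x) (hsuppA x) h4)
      have h4 : B y = -A y := by
        by_contra h5
        have h6 : B y = A y := by
          by_contra h7
          exact h5 (sne (hsuppB y) (hsuppA y) h7)
        apply hAB
        funext g
        by_cases hgx : g = x
        · rw [hgx, h3]
        · by_cases hgy : g = y
          · rw [hgy, h6]
          · exact hoff g hgx hgy
      have h5 : fl A y = B := by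
        funext g
        by_cases hgy : g = y
        · rw [hgy, fl_same, h4]
        · rw [fl_ne A hgy]
          by_cases hgx : g = x
          · rw [hgx, h3]
          · exact hoff g hgx hgy
      apply hpat p2 y hp2 hp2A hp2e hp2y hye hwAy
      rw [h5]
      exact hBe
    have hBy : B y = -A y := by
      by_contra hcon2
      have h3 : B y = A y := by
        by_contra h4
        exact hcon2 (sne (hsuppB y) (hsuppA y) h4)
      have h5 : fl A x = B := by
        funext g
        by_cases hgx : g = x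
        · rw [hgx, fl_same, hBx]
        · rw [fl_ne A hgx]
          by_cases hgy : g = y
          · rw [hgy, h3]
          · exact hoff g hgx hgy
      apply hpat p x hp hpA hpe hpx hxe hwAx
      rw [h5]
      exact hBe
    -- vertices of B
    obtain ⟨x', y', _, r', s', hx'e, hy'e, hx'y', hwB', _, hr', hs', _, hr'B, hs'B, _, _, _, hr'e, hr'x,
      hr'y, hs'e, hs'x, hs'y⟩ := CKM_tri hTRI hR hBt hBe
    obtain ⟨u, v, hu, huB, hue, hux, huy, hv, hvB, hve, hvx, hvy⟩ : ∃ u v : E → SignType,
        Cork L u 2 ∧ Le u B ∧ u e = 0 ∧ u x = 0 ∧ u y ≠ 0 ∧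
        Cork L v 2 ∧ Le v B ∧ v e = 0 ∧ v x ≠ 0 ∧ v y = 0 := by
      have h1 : x' = x ∨ x' = y := by
        rcases (hwB x').1 ((hwB' x').2 (Or.inr (Or.inl rfl))) with h | h | h
        · exact absurd h hx'e
        · exact Or.inl h
        · exact Or.inr h
      have h2 : y' = x ∨ y' = y := by
        rcases (hwB y').1 ((hwB' y').2 (Or.inr (Or.inr rfl))) with h | h | h
        · exact absurd h hy'e
        · exact Or.inl h
        · exact Or.inr h
      rcases h1 with h1 | h1
      · have h3 : y' = y := by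
          rcases h2 with h2 | h2
          · exact absurd (h1.trans h2.symm) hx'y'
          · exact h2
        rw [h1] at hr'x hs'x
        rw [h3] at hr'y hs'y
        exact ⟨r', s', hr', hr'B, hr'e, hr'x, hr'y, hs', hs'B, hs'e, hs'x, hs'y⟩
      · have h3 : y' = x := by
          rcases h2 with h2 | h2
          · exact h2
          · exact absurd (h1.trans h2.symm) hx'y'
        rw [h1] at hr'x hs'x
        rw [h3] at hr'y hs'y
        exact ⟨s', r', hs', hs'B, hs'e, hs'y, hs'x, hr', hr'B, hr'e, hr'y, hr'x⟩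
    have hup : u = fun e => -p e := by
      rcases hPUN E L hR p u hp hu e x (Ne.symm hxe) hpe hpx hue hux with h | h
      · exfalso
        have h3 : p y = A y := (hpA y).resolve_left hpy
        have h4 : u y = B y := (huB y).resolve_left huy
        rw [h, h3, hBy] at h4
        exact hsuppA y (sneg h4 rfl)
      · exact h
    have hvp : v = fun e => -p2 e := by
      rcases hPUN E L hR p2 v hp2 hv e y (Ne.symm hye) hp2e hp2y hve hvy with h | h
      · exfalso
        have h3 : p2 x = A x := (hp2A x).resolve_left hp2x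
        have h4 : v x = B x := (hvB x).resolve_left hvx
        rw [h, h3, hBx] at h4
        exact hsuppA x (sneg h4 rfl)
      · exact h
    have hEp : ∀ g, p g ≠ 0 → g = y := by
      intro g hg
      have h3 : p g = A g := (hpA g).resolve_left hg
      have hug : u g ≠ 0 := by
        rw [hup]
        intro h4
        apply hg
        have h5 : -p g = 0 := h4
        revert h5
        cases p g <;> decide
      have h4 : u g = B g := (huB g).resolve_left hug
      have h5 : B g = -A g := by
        rw [← h4, ← h3, hup]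
      by_contra hgy
      by_cases hgx : g = x
      · exact hg (hgx ▸ hpx)
      · have h6 := hoff g hgx hgy
        rw [h5] at h6
        exact hsuppA g (sneg h6 rfl)
    have hEp2 : ∀ g, p2 g ≠ 0 → g = x := by
      intro g hg
      have h3 : p2 g = A g := (hp2A g).resolve_left hg
      have hug : v g ≠ 0 := by
        rw [hvp]
        intro h4
        apply hg
        have h5 : -p2 g = 0 := h4
        revert h5
        cases p2 g <;> decide
      have h4 : v g = B g := (hvB g).resolve_left hug
      have h5 : B g = -A g := by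
        rw [← h4, ← h3, hvp]
      by_contra hgx
      by_cases hgy : g = y
      · exact hg (hgy ▸ hp2y)
      · have h6 := hoff g hgx hgy
        rw [h5] at h6
        exact hsuppA g (sneg h6 rfl)
    obtain ⟨c, hc, hce, hcx, hall⟩ := CKM_third (S := {g | p g = 0}) (Set.toFinite _) (H p hp hpe).2
      (a := e) (b := x) hpe hpx (Ne.symm hxe)
    have hp2c : p2 c = 0 := by
      by_contra h
      exact hcx (hEp2 c h)
    rcases hPUN E L hR p p2 hp hp2 e c (Ne.symm hce) hpe hc hp2e hp2c with h | h
    · rw [h] at hp2y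
      exact hpy hp2y
    · rw [h] at hp2y
      apply hpy
      have h5 : -p y = 0 := hp2y
      revert h5
      cases p y <;> decide

end Pool.Agent.helper66.SL
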