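import Pool.Agent.helper66.SL.SpecC

/-!
# sl:LO6 (MP_ad2b66_co)
-/

set_option autoImplicit false

namespace Pool.Agent.helper66.SL

open Pool.Agent.helper52.FC

section LO6aux

variable {E : Type}

/-- the negative -/
def LO6_ng (v : E → SignType) : E → SignType := fun g => -v g

theorem LO6_ng_ng (v : E → SignType) : LO6_ng (LO6_ng v) = v := by
  funext g
  simp [LO6_ng]

theorem LO6_ng_zero (v : E → SignType) (g : E) : LO6_ng v g = 0 ↔ v g = 0 := by
  unfold LO6_ng
  cases v g <;> decide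

theorem LO6_fl (T : E → SignType) (e : E) : fl (LO6_ng T) e = LO6_ng (fl T e) := by
  funext g
  unfold fl LO6_ng
  by_cases h : g = e
  · simp [h]
  · simp [h]

theorem LO6_tope {L : Set (E → SignType)} (h : Good L) {T : E → SignType} :
    IsTope L (LO6_ng T) ↔ IsTope L T := by
  constructor
  · intro hT
    have := tope_neg h.om h.simple hT
    have h2 : (fun e => -LO6_ng T e) = T := LO6_ng_ng T
    rwa [h2] at this
  · exact tope_neg h.om h.simple

theorem LO6_wall {L : Set (E → SignType)} (h : Good L) {T : E → SignType} {e : E} :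
    Wall L (LO6_ng T) e ↔ Wall L T e := by
  unfold Wall
  rw [LO6_fl, LO6_tope h]

theorem LO6_le {v T : E → SignType} (h : Le v T) : Le (LO6_ng v) (LO6_ng T) := by
  intro e
  rcases h e with h | h
  · exact Or.inl ((LO6_ng_zero v e).2 h)
  · right
    unfold LO6_ng
    rw [h]

theorem LO6_cork {L : Set (E → SignType)} (h : Good L) {v : E → SignType} {k : ℕ} (hv : Cork L v k) :
    Cork L (LO6_ng v) k := by
  refine ⟨h.om.neg v hv.1, fun T hT hle => ?_⟩
  have h1 := hv.2 (LO6_ng T) ((LO6_tope h).2 hT) (by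
    have := LO6_le hle
    rwa [LO6_ng_ng] at this)
  rw [← h1]
  congr 1
  ext e
  simp only [Set.mem_ofPred_eq, LO6_wall h, LO6_ng_zero]

theorem LO6_vx {L : Set (E → SignType)} (h : Good L) {v : E → SignType} {m : ℕ} (hv : Vx L m v) :
    Vx L m (LO6_ng v) := by
  refine ⟨LO6_cork h hv.1, ?_⟩
  rw [← hv.2]
  congr 1
  ext e
  simp only [Set.mem_ofPred_eq, LO6_ng_zero]

theorem LO6_nb {L : Set (E → SignType)} (h : Good L) {e : E} {v w : E → SignType} (hv : Nb L e v w) :
    Nb L e (LO6_ng v) (LO6_ng w) := by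
  obtain ⟨h1, h2, h3, h4, h5, T, h6, h7, h8, h9⟩ := hv
  refine ⟨LO6_cork h h1, LO6_cork h h2, (LO6_ng_zero v e).2 h3, (LO6_ng_zero w e).2 h4, ?_,
    LO6_ng T, (LO6_tope h).2 h6, (LO6_wall h).2 h7, LO6_le h8, LO6_le h9⟩
  intro h10
  apply h5
  rw [← LO6_ng_ng v, h10, LO6_ng_ng]

theorem LO6_symm {L : Set (E → SignType)} {e : E} {v w : E → SignType} (hv : Nb L e v w) :
    Nb L e w v := by
  obtain ⟨h1, h2, h3, h4, h5, T, h6, h7, h8, h9⟩ := hv
  exact ⟨h2, h1, h4, h3, h5.symm, T, h6, h7, h9, h8⟩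

theorem LO6_two {α : Type} {S : Set α} (hS : S.Finite) (h : S.ncard = 2) {a b : α} (ha : a ∈ S)
    (hb : b ∈ S) (hab : a ≠ b) : ∀ x ∈ S, x = a ∨ x = b := by
  intro x hx
  by_contra hcon
  push Not at hcon
  classical
  have hsub : (({x, a, b} : Finset α) : Set α) ⊆ S := by
    intro y hy
    simp only [Finset.coe_insert, Finset.coe_singleton, Set.mem_insert_iff, Set.mem_singleton_iff] at hy
    rcases hy with rfl | rfl | rfl
    · exact hx
    · exact ha
    · exact hb
  have h1 := Set.ncard_le_ncard hsub hS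
  rw [Set.ncard_coe_finset] at h1
  have h2 : ({x, a, b} : Finset α).card = 3 := by
    rw [Finset.card_insert_of_notMem (by simp [hcon.1, hcon.2]),
      Finset.card_insert_of_notMem (by simp [hab]), Finset.card_singleton]
  omega

theorem LO6_four {α : Type} {S : Set α} (hS : S.Finite) (h : S.ncard = 4) {a b c d : α} (ha : a ∈ S)
    (hb : b ∈ S) (hc : c ∈ S) (hd : d ∈ S) (hab : a ≠ b) (hac : a ≠ c) (had : a ≠ d) (hbc : b ≠ c)
    (hbd : b ≠ d) (hcd : c ≠ d) : ∀ x ∈ S, x = a ∨ x = b ∨ x = c ∨ x = d := by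
  intro x hx
  by_contra hcon
  push Not at hcon
  classical
  have hsub : (({x, a, b, c, d} : Finset α) : Set α) ⊆ S := by
    intro y hy
    simp only [Finset.coe_insert, Finset.coe_singleton, Set.mem_insert_iff, Set.mem_singleton_iff] at hy
    rcases hy with rfl | rfl | rfl | rfl | rfl
    · exact hx
    · exact ha
    · exact hb
    · exact hc
    · exact hd
  have h1 := Set.ncard_le_ncard hsub hS
  rw [Set.ncard_coe_finset] at h1
  have h2 : ({x, a, b, c, d} : Finset α).card = 5 := by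
    rw [Finset.card_insert_of_notMem (by simp [hcon.1, hcon.2.1, hcon.2.2.1, hcon.2.2.2]),
      Finset.card_insert_of_notMem (by simp [hab, hac, had]),
      Finset.card_insert_of_notMem (by simp [hbc, hbd]),
      Finset.card_insert_of_notMem (by simp [hcd]), Finset.card_singleton]
  omega

end LO6aux

theorem LO6_proof (hSZZ : SZZ) (hNBC : NBC) : LO6 := by
  intro E _ L hR p e hp hpe hA hB
  have hG := hR.good
  -- zero set sizes
  have hsz : ∀ v, Cork L v 2 → (Vx L 2 v ∨ Vx L 3 v) := by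
    intro v hv
    rcases (hSZZ E L hG hR.cl v hv).1 with h | h
    · exact Or.inl ⟨hv, h⟩
    · exact Or.inr ⟨hv, h⟩
  have hex : ∀ v, Vx L 2 v → Vx L 3 v → False := by
    intro v h1 h2
    have h3 := h1.2
    rw [h2.2] at h3
    omega
  -- a vertex is not its own negative
  have hne : ∀ v, Cork L v 2 → v ≠ LO6_ng v := by
    intro v hv h
    obtain ⟨T, hT⟩ := exists_tope hG.om
    have h0 : v = fun _ => 0 := by
      funext g
      have h1 := congrFun h g
      unfold LO6_ng at h1
      revert h1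
      cases v g <;> decide
    have h1 : Le v T := fun g => Or.inl (by rw [h0])
    have h2 := hv.2 T hT h1
    have h3 := hR.rk.2 T hT (fun g => Or.inl rfl)
    rw [h0] at h2
    omega
  have hN : ∀ v, Cork L v 2 → v e = 0 → {w | Nb L e v w}.ncard = 2 ∧ ¬ Nb L e v (LO6_ng v) :=
    fun v hv hve => hNBC E L hR v e hv hve
  have hfin : ∀ S : Set (E → SignType), S.Finite := fun S => Set.toFinite S
  -- the sets of vertices on e
  have hD : ∀ a b, (Vx L 2 a ∧ a e = 0) → (Vx L 2 b ∧ b e = 0) → a ≠ b →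
      ∀ x, (Vx L 2 x ∧ x e = 0) → x = a ∨ x = b := by
    intro a b ha hb hab x hx
    exact LO6_two (S := {p | Vx L 2 p ∧ p e = 0}) (hfin _) hA ha hb hab x hx
  have hngmem : ∀ m v, (Vx L m v ∧ v e = 0) → (Vx L m (LO6_ng v) ∧ (LO6_ng v) e = 0) :=
    fun m v hv => ⟨LO6_vx hG hv.1, (LO6_ng_zero v e).2 hv.2⟩
  have hNtwo : ∀ v, Cork L v 2 → v e = 0 → ∀ a b, Nb L e v a → Nb L e v b → a ≠ b →
      ∀ x, Nb L e v x → x = a ∨ x = b := by
    intro v hv hve a b ha hb hab x hx
    exact LO6_two (S := {w | Nb L e v w}) (hfin _) (hN v hv hve).1 ha hb hab x hx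
  have hNex : ∀ v, Cork L v 2 → v e = 0 → ∃ w, Nb L e v w := by
    intro v hv hve
    have h1 := (hN v hv hve).1
    have h2 : {w | Nb L e v w}.Nonempty := by
      rw [Set.nonempty_iff_ne_empty]
      intro h
      rw [h, Set.ncard_empty] at h1
      omega
    exact h2
  intro w w' hww hw hw'
  have hpne := hne p hp.1
  constructor
  · -- both triple is impossible
    intro h3w h3w'
    have hwe : w e = 0 := hw.2.2.2.1
    have hwe' : w' e = 0 := hw'.2.2.2.1
    have hwp : w ≠ p := fun h => hw.2.2.2.2.1 h.symm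
    have hwp' : w ≠ LO6_ng p := fun h => (hN p hp.1 hpe).2 (h ▸ hw)
    have hw'p : w' ≠ p := fun h => hw'.2.2.2.2.1 h.symm
    have hw'p' : w' ≠ LO6_ng p := fun h => (hN p hp.1 hpe).2 (h ▸ hw')
    have hwn := hne w h3w.1
    have hnwp : LO6_ng w ≠ p := fun h => hwp' (by rw [← h, LO6_ng_ng])
    have hnwp' : LO6_ng w ≠ LO6_ng p := fun h => hwp (by rw [← LO6_ng_ng w, h, LO6_ng_ng])
    have hT := LO6_four (S := {p | Vx L 3 p ∧ p e = 0}) (hfin _) hB (a := p) (b := LO6_ng p) (c := w)
      (d := LO6_ng w) ⟨hp, hpe⟩ (hngmem 3 p ⟨hp, hpe⟩) ⟨h3w, hwe⟩ (hngmem 3 w ⟨h3w, hwe⟩) hpne hwp.symm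
      hnwp.symm hwp'.symm hnwp'.symm hwn
    have hw'w : w' = LO6_ng w := by
      rcases hT w' ⟨h3w', hwe'⟩ with h | h | h | h
      · exact absurd h hw'p
      · exact absurd h hw'p'
      · exact absurd h.symm hww
      · exact h
    -- neighbours of w and -w
    have n1 : Nb L e w p := LO6_symm hw
    have n2 : Nb L e w (LO6_ng p) := by
      have h1 := LO6_nb hG (LO6_symm hw')
      rw [hw'w, LO6_ng_ng] at h1
      exact h1
    have hNw := hNtwo w h3w.1 hwe _ _ n1 n2 hpne
    have hNp := hNtwo p hp.1 hpe _ _ hw hw' hww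
    -- a double vertex
    have hDne : {p | Vx L 2 p ∧ p e = 0}.Nonempty := by
      rw [Set.nonempty_iff_ne_empty]
      intro h
      unfold Av at hA
      rw [h, Set.ncard_empty] at hA
      omega
    obtain ⟨d, hd, hde⟩ := hDne
    obtain ⟨s, hs⟩ := hNex d hd.1 hde
    have hse : s e = 0 := hs.2.2.2.1
    rcases hsz s hs.2.1 with h | h
    · have h1 := hD d (LO6_ng d) ⟨hd, hde⟩ (hngmem 2 d ⟨hd, hde⟩) (hne d hd.1) s ⟨h, hse⟩
      rcases h1 with h1 | h1
      · exact hs.2.2.2.2.1 h1.symm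
      · exact (hN d hd.1 hde).2 (h1 ▸ hs)
    · have hds := LO6_symm hs
      rcases hT s ⟨h, hse⟩ with h1 | h1 | h1 | h1
      · rw [h1] at hds
        rcases hNp d hds with h2 | h2
        · exact hex d hd (h2 ▸ h3w)
        · exact hex d hd (h2 ▸ h3w')
      · rw [h1] at hds
        have h4 := LO6_nb hG hds
        rw [LO6_ng_ng] at h4
        have h5 : Vx L 3 (LO6_ng d) := by
          rcases hNp _ h4 with h2 | h2
          · exact h2 ▸ h3w
          · exact h2 ▸ h3w'
        exact hex _ (LO6_vx hG hd) h5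
      · rw [h1] at hds
        rcases hNw d hds with h2 | h2
        · exact hex d hd (h2 ▸ hp)
        · exact hex d hd (h2 ▸ (LO6_vx hG hp))
      · rw [h1] at hds
        have h4 := LO6_nb hG hds
        rw [LO6_ng_ng] at h4
        have h5 : Vx L 3 (LO6_ng d) := by
          rcases hNw _ h4 with h2 | h2
          · exact h2 ▸ hp
          · exact h2 ▸ (LO6_vx hG hp)
        exact hex _ (LO6_vx hG hd) h5
  · -- both double is impossible
    intro h3w'
    rcases hsz w hw.2.1 with h2w | h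
    swap
    · exact h
    exfalso
    rcases hsz w' hw'.2.1 with h2w' | h
    swap
    · exact h3w' h
    have hwe : w e = 0 := hw.2.2.2.1
    have hwe' : w' e = 0 := hw'.2.2.2.1
    have hwn := hne w h2w.1
    have hw'w : LO6_ng w = w' := by
      rcases hD w w' ⟨h2w, hwe⟩ ⟨h2w', hwe'⟩ hww _ (hngmem 2 w ⟨h2w, hwe⟩) with h | h
      · exact absurd h.symm hwn
      · exact h
    have n1 : Nb L e w p := LO6_symm hw
    have n2 : Nb L e w (LO6_ng p) := by
      have h1 := LO6_nb hG (LO6_symm hw')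
      rw [← hw'w, LO6_ng_ng] at h1
      exact h1
    have hNw := hNtwo w h2w.1 hwe _ _ n1 n2 hpne
    have hNp := hNtwo p hp.1 hpe _ _ hw hw' hww
    -- another triple vertex
    obtain ⟨t, ht, htn⟩ : ∃ t ∈ {p | Vx L 3 p ∧ p e = 0}, t ∉ ({p, LO6_ng p} : Set (E → SignType)) := by
      refine Set.exists_mem_notMem_of_ncard_lt_ncard ?_ (Set.toFinite _)
      have h1 : ({p, LO6_ng p} : Set (E → SignType)).ncard ≤ 2 := by
        have := Set.ncard_insert_le p ({LO6_ng p} : Set (E → SignType))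
        rw [Set.ncard_singleton] at this
        exact this
      unfold Bv at hB
      omega
    simp only [Set.mem_insert_iff, Set.mem_singleton_iff, not_or] at htn
    obtain ⟨ht3, hte⟩ := ht
    obtain ⟨s, hs⟩ := hNex t ht3.1 hte
    have hse : s e = 0 := hs.2.2.2.1
    have hst := LO6_symm hs
    rcases hsz s hs.2.1 with h | h
    · rcases hD w (LO6_ng w) ⟨h2w, hwe⟩ (hngmem 2 w ⟨h2w, hwe⟩) hwn s ⟨h, hse⟩ with h1 | h1
      · rw [h1] at hst
        rcases hNw t hst with h2 | h2
        · exact htn.1 h2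
        · exact htn.2 h2
      · rw [h1] at hst
        have h4 := LO6_nb hG hst
        rw [LO6_ng_ng] at h4
        rcases hNw _ h4 with h2 | h2
        · exact htn.2 (by rw [← h2, LO6_ng_ng])
        · exact htn.1 (by rw [← LO6_ng_ng t, h2, LO6_ng_ng])
    · have htp : t ≠ p := htn.1
      have htp' : t ≠ LO6_ng p := htn.2
      have hntp : LO6_ng t ≠ p := fun h => htp' (by rw [← h, LO6_ng_ng])
      have hntp' : LO6_ng t ≠ LO6_ng p := fun h => htp (by rw [← LO6_ng_ng t, h, LO6_ng_ng])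
      have hT := LO6_four (S := {p | Vx L 3 p ∧ p e = 0}) (hfin _) hB (a := p) (b := LO6_ng p) (c := t)
        (d := LO6_ng t) ⟨hp, hpe⟩ (hngmem 3 p ⟨hp, hpe⟩) ⟨ht3, hte⟩ (hngmem 3 t ⟨ht3, hte⟩) hpne htp.symm
        hntp.symm htp'.symm hntp'.symm (hne t ht3.1)
      rcases hT s ⟨h, hse⟩ with h1 | h1 | h1 | h1
      · rw [h1] at hst
        rcases hNp t hst with h2 | h2
        · exact hex t (h2 ▸ h2w) ht3
        · exact hex t (h2 ▸ h2w') ht3
      · rw [h1] at hst
        have h4 := LO6_nb hG hst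
        rw [LO6_ng_ng] at h4
        have h5 : Vx L 2 (LO6_ng t) := by
          rcases hNp _ h4 with h2 | h2
          · exact h2 ▸ h2w
          · exact h2 ▸ h2w'
        exact hex _ h5 (LO6_vx hG ht3)
      · exact hs.2.2.2.2.1 h1.symm
      · exact (hN t ht3.1 hte).2 (h1 ▸ hs)

end Pool.Agent.helper66.SL
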